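import Mathlib
import Pool.Agent.Helper934.PlankDefs
import Pool.Agent.Helper934.PlankCore

/-! The volume of the part of a spherical shell between two parallel hyperplanes. -/

set_option autoImplicit false

open MeasureTheory Metric Set Filter Topology

namespace Run7.h434.PL

open Pool.Agent.Helper934.PlankDefs Pool.Agent.Helper934.PlankCore

/-- volume of the unit ball of `ℝ^n` -/
noncomputable def kap (n : ℕ) : ℝ := (volume (ball (0 : EuclideanSpace ℝ (Fin n)) 1)).toReal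

lemma kap_pos (n : ℕ) : 0 < kap n :=
  ENNReal.toReal_pos (measure_ball_pos _ _ one_pos).ne' measure_ball_lt_top.ne

lemma vol_ball_one (n : ℕ) :
    volume (ball (0 : EuclideanSpace ℝ (Fin n)) 1) = ENNReal.ofReal (kap n) :=
  (ENNReal.ofReal_toReal measure_ball_lt_top.ne).symm

lemma vol_closedBall {n : ℕ} {r : ℝ} (hr : 0 ≤ r) :
    volume (closedBall (0 : EuclideanSpace ℝ (Fin n)) r) = ENNReal.ofReal (kap n * r ^ n) := by
  rw [Measure.addHaar_closedBall _ _ hr, vol_ball_one, finrank_euclideanSpace_fin,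
    ← ENNReal.ofReal_mul (by positivity), mul_comm]

lemma vol_ball {n : ℕ} (hn : 1 ≤ n) {r : ℝ} (hr : 0 ≤ r) :
    volume (ball (0 : EuclideanSpace ℝ (Fin n)) r) = ENNReal.ofReal (kap n * r ^ n) := by
  have : Nonempty (Fin n) := ⟨⟨0, hn⟩⟩
  have : Nontrivial (EuclideanSpace ℝ (Fin n)) := by
    refine Module.nontrivial_of_finrank_pos (R := ℝ) ?_
    rw [finrank_euclideanSpace_fin]
    omega
  rw [Measure.addHaar_ball _ _ hr, vol_ball_one, finrank_euclideanSpace_fin,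
    ← ENNReal.ofReal_mul (by positivity), mul_comm]

lemma vol_annulus_eu {n : ℕ} (hn : 1 ≤ n) {c C : ℝ} (hcC : c ≤ C) :
    volume {x : EuclideanSpace ℝ (Fin n) | c ≤ ‖x‖ ^ 2 ∧ ‖x‖ ^ 2 ≤ C} =
      ENNReal.ofReal (kap n * (√C ^ n - √c ^ n)) := by
  by_cases hC : C < 0
  · have : {x : EuclideanSpace ℝ (Fin n) | c ≤ ‖x‖ ^ 2 ∧ ‖x‖ ^ 2 ≤ C} = ∅ := by
      ext x
      simp only [mem_ofPred_eq, mem_empty_iff_false, iff_false, not_and, not_le]
      intro _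
      nlinarith [sq_nonneg ‖x‖]
    rw [this, Real.sqrt_eq_zero_of_nonpos hC.le, Real.sqrt_eq_zero_of_nonpos (hcC.trans hC.le)]
    simp
  push Not at hC
  have hset : {x : EuclideanSpace ℝ (Fin n) | c ≤ ‖x‖ ^ 2 ∧ ‖x‖ ^ 2 ≤ C} =
      closedBall 0 √C \ ball 0 √c := by
    ext x
    simp only [mem_ofPred_eq, Set.mem_sdiff, mem_closedBall, dist_zero_right, mem_ball, not_lt]
    rw [Real.le_sqrt (norm_nonneg x) hC, Real.sqrt_le_left (norm_nonneg x)]
    exact and_comm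
  have hsub : ball (0 : EuclideanSpace ℝ (Fin n)) √c ⊆ closedBall 0 √C :=
    ball_subset_closedBall.trans (closedBall_subset_closedBall (Real.sqrt_le_sqrt hcC))
  rw [hset, measure_sdiff hsub measurableSet_ball.nullMeasurableSet measure_ball_lt_top.ne,
    vol_closedBall (Real.sqrt_nonneg C), vol_ball hn (Real.sqrt_nonneg c),
    ← ENNReal.ofReal_sub _ (by have := kap_pos n; positivity)]
  congr 1
  ring

lemma vol_annulus {n : ℕ} (hn : 1 ≤ n) {c C : ℝ} (hcC : c ≤ C) :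
    volume {y : Fin n → ℝ | c ≤ ∑ i, y i ^ 2 ∧ ∑ i, y i ^ 2 ≤ C} =
      ENNReal.ofReal (kap n * (√C ^ n - √c ^ n)) := by
  have hvp := (EuclideanSpace.volume_preserving_symm_measurableEquiv_toLp (Fin n))
  set S : Set (Fin n → ℝ) := {y : Fin n → ℝ | c ≤ ∑ i, y i ^ 2 ∧ ∑ i, y i ^ 2 ≤ C} with hS
  have hmeas : MeasurableSet S := by
    have h1 : Measurable (fun y : Fin n → ℝ => ∑ i, y i ^ 2) := by fun_prop
    exact (measurableSet_le measurable_const h1).inter (measurableSet_le h1 measurable_const)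
  have hpre : volume S = volume ((MeasurableEquiv.toLp 2 (Fin n → ℝ)).symm ⁻¹' S) := by
    rw [hvp.measure_preimage hmeas.nullMeasurableSet]
  rw [hpre, ← vol_annulus_eu hn hcC]
  congr 1
  ext x
  simp only [mem_preimage, hS, mem_ofPred_eq, EuclideanSpace.norm_sq_eq,
    Real.norm_eq_abs, sq_abs]
  rfl

/-- The volume of the part of a shell in a plank. -/
lemma shell_plank_eq {n : ℕ} (hn : 1 ≤ n) (θ : EuclideanSpace ℝ (Fin (n + 1))) (hθ : ‖θ‖ = 1)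
    (a b r ρ : ℝ) (hrρ : r ^ 2 ≤ ρ ^ 2) :
    volume ({x : EuclideanSpace ℝ (Fin (n + 1)) | a ≤ inner ℝ x θ ∧ inner ℝ x θ ≤ b} ∩
      {x | r ^ 2 ≤ ‖x‖ ^ 2 ∧ ‖x‖ ^ 2 ≤ ρ ^ 2}) =
      ∫⁻ t in Icc a b, ENNReal.ofReal (kap n * (√(ρ ^ 2 - t ^ 2) ^ n - √(r ^ 2 - t ^ 2) ^ n)) := by
  -- orthonormal basis with first vector θ
  obtain ⟨B, hB⟩ : ∃ B : OrthonormalBasis (Fin (n + 1)) ℝ (EuclideanSpace ℝ (Fin (n + 1))),
      B 0 = θ := by
    have hcard : Module.finrank ℝ (EuclideanSpace ℝ (Fin (n + 1))) = Fintype.card (Fin (n + 1)) := by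
      simp
    have horth : Orthonormal ℝ (({0} : Set (Fin (n + 1))).domRestrict (fun _ => θ)) := by
      rw [orthonormal_iff_ite]
      rintro ⟨i, hi⟩ ⟨j, hj⟩
      simp only [mem_singleton_iff] at hi hj
      subst hi; subst hj
      simp [Set.domRestrict, hθ]
    obtain ⟨B, hB⟩ := horth.exists_orthonormalBasis_extension_of_card_eq hcard
    exact ⟨B, hB 0 rfl⟩
  set S : Set (EuclideanSpace ℝ (Fin (n + 1))) :=
    {x : EuclideanSpace ℝ (Fin (n + 1)) | a ≤ inner ℝ x θ ∧ inner ℝ x θ ≤ b} ∩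
      {x | r ^ 2 ≤ ‖x‖ ^ 2 ∧ ‖x‖ ^ 2 ≤ ρ ^ 2} with hS
  -- the coordinate set
  set S1 : Set (ℝ × (Fin n → ℝ)) :=
    {p | a ≤ p.1 ∧ p.1 ≤ b ∧ r ^ 2 - p.1 ^ 2 ≤ ∑ i, p.2 i ^ 2 ∧
      ∑ i, p.2 i ^ 2 ≤ ρ ^ 2 - p.1 ^ 2} with hS1
  have hmeas1 : MeasurableSet S1 := by
    have e1 : Measurable (fun p : ℝ × (Fin n → ℝ) => p.1) := measurable_fst
    have e2 : Measurable (fun p : ℝ × (Fin n → ℝ) => ∑ i, p.2 i ^ 2) := by fun_prop
    have e3 : Measurable (fun p : ℝ × (Fin n → ℝ) => r ^ 2 - p.1 ^ 2) := by fun_prop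
    have e4 : Measurable (fun p : ℝ × (Fin n → ℝ) => ρ ^ 2 - p.1 ^ 2) := by fun_prop
    have : S1 = {p | a ≤ p.1} ∩ ({p | p.1 ≤ b} ∩ ({p | r ^ 2 - p.1 ^ 2 ≤ ∑ i, p.2 i ^ 2} ∩
        {p | ∑ i, p.2 i ^ 2 ≤ ρ ^ 2 - p.1 ^ 2})) := by
      ext p; simp [hS1]
    rw [this]
    exact (measurableSet_le measurable_const e1).inter ((measurableSet_le e1 measurable_const).inter
      ((measurableSet_le e3 e2).inter (measurableSet_le e2 e4)))
  -- measure preserving map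
  have mp1 := B.measurePreserving_repr
  have mp2 := EuclideanSpace.volume_preserving_symm_measurableEquiv_toLp (Fin (n + 1))
  have mp3 := volume_preserving_piFinSuccAbove (fun _ : Fin (n + 1) => ℝ) 0
  have mp := mp3.comp (mp2.comp mp1)
  have hpre : S = (⇑(MeasurableEquiv.piFinSuccAbove (fun _ : Fin (n + 1) => ℝ) 0) ∘
      ⇑(MeasurableEquiv.toLp 2 (Fin (n + 1) → ℝ)).symm ∘ ⇑B.repr) ⁻¹' S1 := by
    ext x
    have hnorm : ‖x‖ ^ 2 = (B.repr x) 0 ^ 2 + ∑ i : Fin n, (B.repr x) i.succ ^ 2 := by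
      have : ‖x‖ = ‖B.repr x‖ := by simp
      rw [this, EuclideanSpace.norm_sq_eq, Fin.sum_univ_succ]
      simp only [Real.norm_eq_abs, sq_abs]
    have hinner : inner ℝ x θ = (B.repr x) 0 := by
      rw [B.repr_apply_apply, hB, real_inner_comm]
    have h0 : ((MeasurableEquiv.piFinSuccAbove (fun _ : Fin (n + 1) => ℝ) 0)
        ((MeasurableEquiv.toLp 2 (Fin (n + 1) → ℝ)).symm (B.repr x))).1 = (B.repr x) 0 := rfl
    have h1 : ∀ i : Fin n, ((MeasurableEquiv.piFinSuccAbove (fun _ : Fin (n + 1) => ℝ) 0)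
        ((MeasurableEquiv.toLp 2 (Fin (n + 1) → ℝ)).symm (B.repr x))).2 i =
          (B.repr x) i.succ := fun i => rfl
    simp only [hS, hS1, mem_inter_iff, mem_ofPred_eq, mem_preimage, Function.comp_apply, hnorm,
      hinner, h0, h1]
    constructor
    · rintro ⟨⟨h1, h2⟩, h3, h4⟩
      exact ⟨h1, h2, by linarith, by linarith⟩
    · rintro ⟨h1, h2, h3, h4⟩
      exact ⟨⟨h1, h2⟩, by linarith, by linarith⟩
  have hvol : volume S = volume S1 := by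
    rw [hpre]
    exact mp.measure_preimage hmeas1.nullMeasurableSet
  rw [hvol, Measure.volume_eq_prod, Measure.prod_apply hmeas1, ← lintegral_indicator measurableSet_Icc]
  refine lintegral_congr fun t => ?_
  by_cases ht : t ∈ Icc a b
  · rw [indicator_of_mem ht, ← vol_annulus hn (show r ^ 2 - t ^ 2 ≤ ρ ^ 2 - t ^ 2 by linarith)]
    congr 1
    ext y
    simp only [hS1, mem_preimage, mem_ofPred_eq]
    exact ⟨fun hy => ⟨hy.2.2.1, hy.2.2.2⟩, fun hy => ⟨ht.1, ht.2, hy.1, hy.2⟩⟩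
  · rw [indicator_of_notMem ht]
    have : Prod.mk t ⁻¹' S1 = ∅ := by
      ext y
      simp only [hS1, mem_preimage, mem_ofPred_eq, mem_empty_iff_false, iff_false]
      intro hy
      exact ht ⟨hy.1, hy.2.1⟩
    rw [this]; simp

/-- the function `v ↦ (√v)^n` is convex for `n ≥ 2` -/
lemma convex_pw {n : ℕ} (hn : 2 ≤ n) : ConvexOn ℝ univ fun v : ℝ => √v ^ n := by
  have h1 : (1 : ℝ) ≤ (n : ℝ) / 2 := by
    have : (2 : ℝ) ≤ n := by exact_mod_cast hn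
    linarith
  have h2 := convexOn_rpow h1
  have e : ∀ v : ℝ, √v ^ n = (max v 0) ^ ((n : ℝ) / 2) := by
    intro v
    have : √v = √(max v 0) := by
      rcases le_total v 0 with h | h
      · rw [max_eq_right h, Real.sqrt_eq_zero_of_nonpos h, Real.sqrt_zero]
      · rw [max_eq_left h]
    rw [this, Real.sqrt_eq_rpow, ← Real.rpow_natCast, ← Real.rpow_mul (le_max_right _ _)]
    congr 1
    ring
  refine ⟨convex_univ, fun x _ y _ a b ha hb hab => ?_⟩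
  simp only [e]
  have h3 : max (a • x + b • y) 0 ≤ a * max x 0 + b * max y 0 := by
    refine max_le ?_ (by positivity)
    simp only [smul_eq_mul]
    exact add_le_add (mul_le_mul_of_nonneg_left (le_max_left _ _) ha)
      (mul_le_mul_of_nonneg_left (le_max_left _ _) hb)
  calc (max (a • x + b • y) 0) ^ ((n : ℝ) / 2)
      ≤ (a * max x 0 + b * max y 0) ^ ((n : ℝ) / 2) :=
        Real.rpow_le_rpow (le_max_right _ _) h3 (by linarith)
    _ ≤ a • (max x 0) ^ ((n : ℝ) / 2) + b • (max y 0) ^ ((n : ℝ) / 2) := by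
        have := h2.2 (mem_Ici.2 (le_max_right x 0))
          (mem_Ici.2 (le_max_right y 0)) ha hb hab
        simpa only [smul_eq_mul] using this

/-- differences of a convex function are monotone -/
lemma diff_mono {f : ℝ → ℝ} (hf : ConvexOn ℝ univ f) {u v δ : ℝ} (huv : u ≤ v) (hδ : 0 ≤ δ) :
    f (u + δ) - f u ≤ f (v + δ) - f v := by
  rcases eq_or_lt_of_le (show 0 ≤ (v - u) + δ by linarith) with h | h
  · have h1 : v = u := by linarith
    subst h1; exact le_rfl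
  set τ : ℝ := (v - u) / ((v - u) + δ) with hτ
  have h0 : 0 ≤ τ := div_nonneg (by linarith) h.le
  have h1 : τ ≤ 1 := by rw [hτ, div_le_one h]; linarith
  have e1 : v = (1 - τ) * u + τ * (v + δ) := by
    rw [hτ]; field_simp; ring
  have e2 : u + δ = τ * u + (1 - τ) * (v + δ) := by
    rw [hτ]; field_simp; ring
  have k1 := hf.2 (mem_univ u) (mem_univ (v + δ)) (show 0 ≤ 1 - τ by linarith) h0 (by ring)
  have k2 := hf.2 (mem_univ u) (mem_univ (v + δ)) h0 (show 0 ≤ 1 - τ by linarith) (by ring)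
  simp only [smul_eq_mul] at k1 k2
  rw [← e1] at k1
  rw [← e2] at k2
  linarith

lemma pw_diff {n : ℕ} (hn : 2 ≤ n) {r ρ s t : ℝ} (hrρ : r ^ 2 ≤ ρ ^ 2) (hst : s ^ 2 ≤ t ^ 2) :
    √(ρ ^ 2 - t ^ 2) ^ n - √(r ^ 2 - t ^ 2) ^ n ≤ √(ρ ^ 2 - s ^ 2) ^ n - √(r ^ 2 - s ^ 2) ^ n := by
  have h := diff_mono (convex_pw hn) (u := r ^ 2 - t ^ 2) (v := r ^ 2 - s ^ 2)
    (δ := ρ ^ 2 - r ^ 2) (by linarith) (by linarith)
  have e1 : r ^ 2 - t ^ 2 + (ρ ^ 2 - r ^ 2) = ρ ^ 2 - t ^ 2 := by ring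
  have e2 : r ^ 2 - s ^ 2 + (ρ ^ 2 - r ^ 2) = ρ ^ 2 - s ^ 2 := by ring
  rw [e1, e2] at h
  exact h

/-- upper bound -/
lemma shell_plank_le {n : ℕ} (hn : 2 ≤ n) (θ : EuclideanSpace ℝ (Fin (n + 1))) (hθ : ‖θ‖ = 1)
    (a b : ℝ) {r ρ : ℝ} (hr : 0 ≤ r) (hrρ : r ≤ ρ) :
    volume (plank θ a b ∩ {x | r ^ 2 ≤ ‖x‖ ^ 2 ∧ ‖x‖ ^ 2 ≤ ρ ^ 2}) ≤
      ENNReal.ofReal (kap n * (ρ ^ n - r ^ n)) * ENNReal.ofReal (b - a) := by
  have h2 : r ^ 2 ≤ ρ ^ 2 := by nlinarith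
  unfold plank
  rw [shell_plank_eq (by omega) θ hθ a b r ρ h2]
  calc ∫⁻ t in Icc a b, ENNReal.ofReal (kap n * (√(ρ ^ 2 - t ^ 2) ^ n - √(r ^ 2 - t ^ 2) ^ n))
      ≤ ∫⁻ _ in Icc a b, ENNReal.ofReal (kap n * (ρ ^ n - r ^ n)) := by
        refine lintegral_mono fun t => ENNReal.ofReal_le_ofReal ?_
        refine mul_le_mul_of_nonneg_left ?_ (kap_pos n).le
        have := pw_diff hn h2 (show (0 : ℝ) ^ 2 ≤ t ^ 2 by nlinarith [sq_nonneg t])
        rw [show ρ ^ 2 - (0 : ℝ) ^ 2 = ρ ^ 2 by ring, show r ^ 2 - (0 : ℝ) ^ 2 = r ^ 2 by ring,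
          Real.sqrt_sq hr, Real.sqrt_sq (hr.trans hrρ)] at this
        exact this
    _ = _ := by rw [setLIntegral_const, Real.volume_Icc]

/-- lower bound for central planks -/
lemma shell_plank_ge {n : ℕ} (hn : 2 ≤ n) (θ : EuclideanSpace ℝ (Fin (n + 1))) (hθ : ‖θ‖ = 1)
    {s r ρ : ℝ} (hs : 0 ≤ s) (hr : 0 ≤ r) (hrρ : r ≤ ρ) :
    ENNReal.ofReal (kap n * (√(ρ ^ 2 - s ^ 2) ^ n - √(r ^ 2 - s ^ 2) ^ n)) *
      ENNReal.ofReal (2 * s) ≤
    volume (plank θ (-s) s ∩ {x | r ^ 2 ≤ ‖x‖ ^ 2 ∧ ‖x‖ ^ 2 ≤ ρ ^ 2}) := by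
  have h2 : r ^ 2 ≤ ρ ^ 2 := by nlinarith
  unfold plank
  rw [shell_plank_eq (by omega) θ hθ (-s) s r ρ h2]
  calc _ = ∫⁻ _ in Icc (-s) s,
        ENNReal.ofReal (kap n * (√(ρ ^ 2 - s ^ 2) ^ n - √(r ^ 2 - s ^ 2) ^ n)) := by
        rw [setLIntegral_const, Real.volume_Icc]
        congr 2
        ring
    _ ≤ _ := by
        refine setLIntegral_mono' measurableSet_Icc fun t ht => ENNReal.ofReal_le_ofReal ?_
        refine mul_le_mul_of_nonneg_left ?_ (kap_pos n).le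
        exact pw_diff hn h2 (by have := ht.1; have := ht.2; nlinarith)

end Run7.h434.PL
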