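import Mathlib
import Pool.Agent.Run7.h434.PL.Shell
import Pool.Agent.Helper934.PlankMain

/-! Lower bound for multiple plank coverings of balls in all dimensions. -/

set_option autoImplicit false

open MeasureTheory Metric Set Filter Topology

namespace Run7.h434.PL

open Pool.Agent.Helper934.PlankDefs Pool.Agent.Helper934.PlankCore Pool.Agent.Helper934.PlankMain

/-- the constant `λ` of dimension `n + 1` -/
noncomputable def lamb (n : ℕ) : ℝ := (n + 1) * kap (n + 1) / (2 * n * kap n)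

lemma lamb_pos {n : ℕ} (hn : 1 ≤ n) : 0 < lamb n := by
  have h1 := kap_pos n
  have h2 := kap_pos (n + 1)
  have h3 : (0 : ℝ) < n := by exact_mod_cast hn
  unfold lamb
  positivity

lemma vol_shell {n : ℕ} (hn : 1 ≤ n) {r ρ : ℝ} (hr : 0 ≤ r) (hrρ : r ≤ ρ) :
    volume {x : EuclideanSpace ℝ (Fin n) | r ^ 2 ≤ ‖x‖ ^ 2 ∧ ‖x‖ ^ 2 ≤ ρ ^ 2} =
      ENNReal.ofReal (kap n * (ρ ^ n - r ^ n)) := by
  rw [vol_annulus_eu hn (by nlinarith), Real.sqrt_sq hr, Real.sqrt_sq (hr.trans hrρ)]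

lemma slope_pow (n : ℕ) (ρ : ℝ) :
    Tendsto (fun r : ℝ => (ρ ^ n - r ^ n) / (ρ - r)) (𝓝[<] ρ) (𝓝 (n * ρ ^ (n - 1))) := by
  have h := (hasDerivAt_pow n ρ).tendsto_slope
  have h1 := h.mono_left (nhdsWithin_mono ρ (fun x (hx : x < ρ) => ne_of_lt hx))
  refine h1.congr fun r => ?_
  rw [slope_def_field, ← neg_div_neg_eq]
  congr 1 <;> ring

/-- A `k`-fold plank covering of a ball of radius `ρ` about the origin. -/
lemma ball_zero {n m : ℕ} (hn : 2 ≤ n) (ρ : ℝ) (hρ : 0 < ρ) (k : ℕ)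
    (θ : Fin m → EuclideanSpace ℝ (Fin (n + 1))) (a b : Fin m → ℝ) (hθ : ∀ i, ‖θ i‖ = 1)
    (hab : ∀ i, a i ≤ b i)
    (h : ∀ x ∈ closedBall (0 : EuclideanSpace ℝ (Fin (n + 1))) ρ,
      k ≤ Nat.card {i : Fin m // x ∈ plank (θ i) (a i) (b i)}) :
    lamb n * (2 * ρ) * k ≤ ∑ i, (b i - a i) := by
  set W := ∑ i, (b i - a i) with hW
  have hW0 : 0 ≤ W := Finset.sum_nonneg (fun i _ => sub_nonneg.mpr (hab i))
  have hk0 := kap_pos n
  have hk1 := kap_pos (n + 1)
  have key : ∀ r : ℝ, 0 < r → r < ρ →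
      (k : ℝ) * (kap (n + 1) * ((ρ ^ (n + 1) - r ^ (n + 1)) / (ρ - r))) ≤
        kap n * ((ρ ^ n - r ^ n) / (ρ - r)) * W := by
    intro r hr hrρ
    set S : Set (EuclideanSpace ℝ (Fin (n + 1))) := {x | r ^ 2 ≤ ‖x‖ ^ 2 ∧ ‖x‖ ^ 2 ≤ ρ ^ 2} with hS
    have hSm : MeasurableSet S := by
      have h1 : Measurable (fun x : EuclideanSpace ℝ (Fin (n + 1)) => ‖x‖ ^ 2) := by fun_prop
      exact (measurableSet_le measurable_const h1).inter (measurableSet_le h1 measurable_const)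
    have hc := count_measure S hSm k θ a b (by
      intro x hx
      apply h
      simp only [mem_closedBall, dist_zero_right]
      exact le_of_sq_le_sq hx.2 hρ.le)
    have hpn : r ^ n ≤ ρ ^ n := pow_le_pow_left₀ hr.le hrρ.le n
    have hpn1 : r ^ (n + 1) ≤ ρ ^ (n + 1) := pow_le_pow_left₀ hr.le hrρ.le (n + 1)
    have hup : ∑ i, volume (plank (θ i) (a i) (b i) ∩ S) ≤
        ENNReal.ofReal (kap n * (ρ ^ n - r ^ n) * W) := by
      calc ∑ i, volume (plank (θ i) (a i) (b i) ∩ S)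
          ≤ ∑ i, ENNReal.ofReal (kap n * (ρ ^ n - r ^ n)) * ENNReal.ofReal (b i - a i) :=
            Finset.sum_le_sum (fun i _ => shell_plank_le hn (θ i) (hθ i) (a i) (b i) hr.le hrρ.le)
        _ = ENNReal.ofReal (kap n * (ρ ^ n - r ^ n) * W) := by
            rw [← Finset.mul_sum, ← ENNReal.ofReal_sum_of_nonneg
              (fun i _ => sub_nonneg.mpr (hab i)), ← ENNReal.ofReal_mul]
            exact mul_nonneg hk0.le (by linarith)
    have hlow : volume S = ENNReal.ofReal (kap (n + 1) * (ρ ^ (n + 1) - r ^ (n + 1))) :=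
      vol_shell (by omega) hr.le hrρ.le
    have h3 : (k : ENNReal) * ENNReal.ofReal (kap (n + 1) * (ρ ^ (n + 1) - r ^ (n + 1))) ≤
        ENNReal.ofReal (kap n * (ρ ^ n - r ^ n) * W) := by
      rw [← hlow]
      exact hc.trans hup
    have hnn : 0 ≤ kap n * (ρ ^ n - r ^ n) * W :=
      mul_nonneg (mul_nonneg hk0.le (by linarith)) hW0
    rw [show (k : ENNReal) = ENNReal.ofReal (k : ℝ) by simp,
      ← ENNReal.ofReal_mul (by positivity), ENNReal.ofReal_le_ofReal_iff hnn] at h3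
    have hpos : 0 < ρ - r := by linarith
    have e1 : (k : ℝ) * (kap (n + 1) * ((ρ ^ (n + 1) - r ^ (n + 1)) / (ρ - r))) =
        (k : ℝ) * (kap (n + 1) * (ρ ^ (n + 1) - r ^ (n + 1))) / (ρ - r) := by ring
    have e2 : kap n * ((ρ ^ n - r ^ n) / (ρ - r)) * W =
        kap n * (ρ ^ n - r ^ n) * W / (ρ - r) := by ring
    rw [e1, e2]
    exact div_le_div_of_nonneg_right h3 hpos.le
  -- pass to the limit
  have hlim : (k : ℝ) * (kap (n + 1) * (((n + 1 : ℕ) : ℝ) * ρ ^ (n + 1 - 1))) ≤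
      kap n * ((n : ℝ) * ρ ^ (n - 1)) * W := by
    have c1 := ((slope_pow (n + 1) ρ).const_mul (kap (n + 1))).const_mul (k : ℝ)
    have c2 := ((slope_pow n ρ).const_mul (kap n)).mul_const W
    apply le_of_tendsto_of_tendsto c1 c2
    have : Ioo 0 ρ ∈ 𝓝[<] ρ := Ioo_mem_nhdsLT hρ
    filter_upwards [this] with r hr
    exact key r hr.1 hr.2
  have hn0 : (0 : ℝ) < n := by
    have : 0 < n := by omega
    exact_mod_cast this
  have hpw : 0 < ρ ^ (n - 1) := by positivity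
  have e3 : ρ ^ (n + 1 - 1) = ρ ^ (n - 1) * ρ := by
    rw [← pow_succ]
    congr 1
    omega
  rw [e3] at hlim
  push_cast at hlim
  have h4 : ρ ^ (n - 1) * ((k : ℝ) * (kap (n + 1) * ((n + 1) * ρ))) ≤
      ρ ^ (n - 1) * (kap n * n * W) := by
    nlinarith [hlim]
  have h5 := le_of_mul_le_mul_left h4 hpw
  unfold lamb
  rw [div_mul_eq_mul_div, div_mul_eq_mul_div, div_le_iff₀ (by positivity)]
  nlinarith [h5]

/-- Translated version. -/
lemma ball_any {n m : ℕ} (hn : 2 ≤ n) (g : EuclideanSpace ℝ (Fin (n + 1))) (ρ : ℝ) (hρ : 0 < ρ)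
    (k : ℕ) (θ : Fin m → EuclideanSpace ℝ (Fin (n + 1))) (a b : Fin m → ℝ) (hθ : ∀ i, ‖θ i‖ = 1)
    (hab : ∀ i, a i ≤ b i)
    (h : ∀ x ∈ closedBall g ρ, k ≤ Nat.card {i : Fin m // x ∈ plank (θ i) (a i) (b i)}) :
    lamb n * (2 * ρ) * k ≤ ∑ i, (b i - a i) := by
  have := ball_zero hn ρ hρ k θ (fun i => a i - inner ℝ g (θ i)) (fun i => b i - inner ℝ g (θ i)) hθ
    (fun i => by simpa using hab i) (by
      intro x hx
      have h1 := h (x + g) (by
        simp only [mem_closedBall, dist_zero_right] at hx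
        simpa [mem_closedBall, dist_eq_norm] using hx)
      refine h1.trans (le_of_eq ?_)
      apply Nat.card_congr
      apply Equiv.subtypeEquivRight
      intro i
      simp only [plank, mem_ofPred_eq, inner_add_left]
      constructor
      · rintro ⟨h1, h2⟩; exact ⟨by linarith, by linarith⟩
      · rintro ⟨h1, h2⟩; exact ⟨by linarith, by linarith⟩)
  simpa using this

/-- The total width of a `k`-fold covering of `K` is at least `λ · 2 r k`. -/
lemma total_ge' {n : ℕ} (hn : 2 ≤ n) {K : Set (EuclideanSpace ℝ (Fin (n + 1)))}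
    (hb : IsConvexBody K) (k m : ℕ) (θ : Fin m → EuclideanSpace ℝ (Fin (n + 1))) (a b : Fin m → ℝ)
    (hc : IsFoldCover K k θ a b) : lamb n * (2 * inradius K) * k ≤ ∑ i, (b i - a i) := by
  have hd1 : 1 ≤ n + 1 := by omega
  have key : ∀ ρ : ℝ, 0 < ρ → ρ < inradius K → lamb n * (2 * ρ) * k ≤ ∑ i, (b i - a i) := by
    intro ρ h1 h2
    obtain ⟨g, hg⟩ := ball_of_lt hb h2
    exact ball_any hn g ρ h1 k θ a b hc.1 hc.2.1 (fun x hx => hc.2.2 x (hg hx))
  have hpos := inradius_pos hd1 hb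
  have c1 : Tendsto (fun r : ℝ => lamb n * (2 * r) * k) (𝓝[<] (inradius K))
      (𝓝 (lamb n * (2 * inradius K) * k)) := by
    apply tendsto_nhdsWithin_of_tendsto_nhds
    have : Continuous (fun r : ℝ => lamb n * (2 * r) * k) := by fun_prop
    exact this.tendsto _
  apply le_of_tendsto c1
  have : Ioo 0 (inradius K) ∈ 𝓝[<] (inradius K) := Ioo_mem_nhdsLT hpos
  filter_upwards [this] with r hr
  exact key r hr.1 hr.2

lemma coverConst_ge' {n : ℕ} (hn : 2 ≤ n) {K : Set (EuclideanSpace ℝ (Fin (n + 1)))}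
    (hb : IsConvexBody K) (k : ℕ) :
    lamb n * (2 * inradius K / minWidth K) * k ≤ coverConst K k := by
  have hd1 : 1 ≤ n + 1 := by omega
  have hw := minWidth_pos hd1 hb
  obtain ⟨e, he⟩ := exists_unit hd1
  refine le_csInf (show Set.Nonempty {c : ℝ | ∃ (m : ℕ)
    (θ : Fin m → EuclideanSpace ℝ (Fin (n + 1)))
    (a b : Fin m → ℝ), IsFoldCover K k θ a b ∧ c = (∑ i, (b i - a i)) / minWidth K} from
    ⟨_, k, _, _, _, trivial_cover hb k e he, rfl⟩) ?_
  rintro _ ⟨m, θ, a, b, hc, rfl⟩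
  have := total_ge' hn hb k m θ a b hc
  have e1 : lamb n * (2 * inradius K / minWidth K) * k =
      lamb n * (2 * inradius K) * k / minWidth K := by ring
  rw [e1]
  exact div_le_div_of_nonneg_right this hw.le

end Run7.h434.PL
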