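import Mathlib
import Pool.Agent.Run7.h434.PL.Lower

/-! Upper bound for multiple plank coverings of balls in all dimensions. -/

set_option autoImplicit false

open MeasureTheory Metric Set Filter Topology

namespace Run7.h434.PL

open Pool.Agent.Helper934.PlankDefs Pool.Agent.Helper934.PlankCore Pool.Agent.Helper934.PlankMain

lemma fin_cover {d : ℕ} {ι : Type} [Fintype ι] {K : Set (EuclideanSpace ℝ (Fin d))} {k : ℕ}
    (θ : ι → EuclideanSpace ℝ (Fin d)) (a b : ι → ℝ) (hθ : ∀ i, ‖θ i‖ = 1)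
    (hab : ∀ i, a i ≤ b i)
    (h : ∀ x ∈ K, k ≤ Nat.card {i : ι // x ∈ plank (θ i) (a i) (b i)}) :
    ∃ (m : ℕ) (θ' : Fin m → EuclideanSpace ℝ (Fin d)) (a' b' : Fin m → ℝ),
      IsFoldCover K k θ' a' b' ∧ ∑ i, (b' i - a' i) = ∑ i, (b i - a i) := by
  set e := Fintype.equivFin ι with he
  refine ⟨Fintype.card ι, θ ∘ e.symm, a ∘ e.symm, b ∘ e.symm, ⟨fun i => hθ _, fun i => hab _, ?_⟩, ?_⟩
  · intro x hx
    refine (h x hx).trans (le_of_eq ?_)
    refine (Nat.card_congr (Equiv.subtypeEquiv e.symm fun j => ?_)).symm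
    rfl
  · exact Equiv.sum_comp e.symm (fun i => b i - a i)

lemma coverConst_add {d : ℕ} (hd : 1 ≤ d) {K : Set (EuclideanSpace ℝ (Fin d))}
    (hb : IsConvexBody K) (k l : ℕ) :
    coverConst K (k + l) ≤ coverConst K k + coverConst K l := by
  have hw := minWidth_pos hd hb
  obtain ⟨e, he⟩ := exists_unit hd
  have key : ∀ c1 ∈ {c : ℝ | ∃ (m : ℕ) (θ : Fin m → EuclideanSpace ℝ (Fin d))
      (a b : Fin m → ℝ), IsFoldCover K k θ a b ∧ c = (∑ i, (b i - a i)) / minWidth K},
      ∀ c2 ∈ {c : ℝ | ∃ (m : ℕ) (θ : Fin m → EuclideanSpace ℝ (Fin d))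
      (a b : Fin m → ℝ), IsFoldCover K l θ a b ∧ c = (∑ i, (b i - a i)) / minWidth K},
      coverConst K (k + l) ≤ c1 + c2 := by
    rintro _ ⟨m1, θ1, a1, b1, h1, rfl⟩ _ ⟨m2, θ2, a2, b2, h2, rfl⟩
    obtain ⟨m, θ, a, b, h3, h4⟩ := fin_cover (ι := Fin m1 ⊕ Fin m2) (K := K) (k := k + l)
      (Sum.elim θ1 θ2) (Sum.elim a1 a2) (Sum.elim b1 b2)
      (by rintro (i | i); exacts [h1.1 i, h2.1 i]) (by rintro (i | i); exacts [h1.2.1 i, h2.2.1 i])
      (by
        intro x hx
        have k1 := h1.2.2 x hx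
        have k2 := h2.2.2 x hx
        classical
        rw [Nat.card_eq_fintype_card, Fintype.card_subtype, Finset.card_filter] at k1 k2 ⊢
        rw [Fintype.sum_sum_type]
        simp only [Sum.elim_inl, Sum.elim_inr]
        exact add_le_add k1 k2)
    refine (coverConst_le hw.le h3).trans (le_of_eq ?_)
    rw [h4, Fintype.sum_sum_type]
    simp only [Sum.elim_inl, Sum.elim_inr]
    rw [add_div]
  have ne1 : Set.Nonempty {c : ℝ | ∃ (m : ℕ) (θ : Fin m → EuclideanSpace ℝ (Fin d))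
      (a b : Fin m → ℝ), IsFoldCover K k θ a b ∧ c = (∑ i, (b i - a i)) / minWidth K} :=
    ⟨_, k, _, _, _, trivial_cover hb k e he, rfl⟩
  have ne2 : Set.Nonempty {c : ℝ | ∃ (m : ℕ) (θ : Fin m → EuclideanSpace ℝ (Fin d))
      (a b : Fin m → ℝ), IsFoldCover K l θ a b ∧ c = (∑ i, (b i - a i)) / minWidth K} :=
    ⟨_, l, _, _, _, trivial_cover hb l e he, rfl⟩
  have s1 : ∀ c2 ∈ {c : ℝ | ∃ (m : ℕ) (θ : Fin m → EuclideanSpace ℝ (Fin d))
      (a b : Fin m → ℝ), IsFoldCover K l θ a b ∧ c = (∑ i, (b i - a i)) / minWidth K},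
      coverConst K (k + l) - c2 ≤ coverConst K k := by
    intro c2 h2
    refine le_csInf ne1 fun c1 h1 => ?_
    have := key c1 h1 c2 h2
    linarith
  have s2 : coverConst K (k + l) - coverConst K k ≤ coverConst K l := by
    refine le_csInf ne2 fun c2 h2 => ?_
    have := s1 c2 h2
    linarith
  linarith

/-- Finitely many weighted directions whose central planks cover the unit ball evenly. -/
lemma exists_planks {n : ℕ} (hn : 2 ≤ n) {r s δ : ℝ} (hr : 0 < r) (hr1 : r < 1) (hs : 0 < s)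
    (hδ : 0 < δ) :
    ∃ (J : ℕ) (w : ℕ → ℝ) (θ : ℕ → EuclideanSpace ℝ (Fin (n + 1))),
      (∀ j, 0 ≤ w j) ∧ (∀ j < J, ‖θ j‖ = 1) ∧
      ∑ j ∈ Finset.range J, w j ≤ kap (n + 1) * (1 - r ^ (n + 1)) ∧
      ∀ x : EuclideanSpace ℝ (Fin (n + 1)), ‖x‖ ≤ 1 →
        ∀ T : Finset ℕ, (∀ j ∈ Finset.range J, |inner ℝ x (θ j)| ≤ (s + δ) / r → j ∈ T) →
        kap n * (√(1 - s ^ 2) ^ n - √(r ^ 2 - s ^ 2) ^ n) * (2 * s) ≤ ∑ j ∈ T, w j := by
  classical
  set E := EuclideanSpace ℝ (Fin (n + 1)) with hE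
  set S : Set E := {y | r ^ 2 ≤ ‖y‖ ^ 2 ∧ ‖y‖ ^ 2 ≤ (1 : ℝ) ^ 2} with hS
  have hSc : IsCompact S := by
    refine Metric.isCompact_of_isClosed_isBounded ?_ ?_
    · have c : Continuous fun y : E => ‖y‖ ^ 2 := by fun_prop
      exact (isClosed_le continuous_const c).inter (isClosed_le c continuous_const)
    · refine (isBounded_closedBall (x := (0 : E)) (r := 1)).subset (fun y hy => ?_)
      simp only [mem_closedBall, dist_zero_right]
      exact le_of_sq_le_sq hy.2 zero_le_one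
  have hSm : MeasurableSet S := hSc.measurableSet
  obtain ⟨t, ht1, ht2, ht3⟩ := hSc.finite_cover_balls hδ
  set T0 := ht2.toFinset with hT0
  set J := T0.card with hJ
  set e : ℕ → E := fun j => if h : j < J then (T0.equivFin.symm ⟨j, h⟩ : E) else 0 with he
  have he1 : ∀ j < J, e j ∈ S := by
    intro j hj
    simp only [he, dif_pos hj]
    apply ht1
    exact ht2.mem_toFinset.1 (T0.equivFin.symm ⟨j, hj⟩).2
  have he2 : ∀ y ∈ S, ∃ j < J, dist y (e j) < δ := by
    intro y hy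
    obtain ⟨z, hz, hyz⟩ := mem_iUnion₂.1 (ht3 hy)
    have hzT : z ∈ T0 := by simpa [hT0] using hz
    refine ⟨T0.equivFin ⟨z, hzT⟩, (T0.equivFin ⟨z, hzT⟩).2, ?_⟩
    have h0 : e (T0.equivFin ⟨z, hzT⟩) = z := by
      simp only [he]
      rw [dif_pos (T0.equivFin ⟨z, hzT⟩).2]
      simp
    rw [h0]
    exact hyz
  have hp : ∀ y : E, ∃ j : ℕ, dist y (e j) < δ ∨ J ≤ j := fun y => ⟨J, Or.inr le_rfl⟩
  set c : E → ℕ := fun y => Nat.find (hp y) with hc
  have hcm : Measurable c := by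
    refine measurable_find hp fun k => ?_
    by_cases hk : J ≤ k
    · simp [hk]
    · simp only [hk, or_false]
      exact measurableSet_lt (by fun_prop) measurable_const
  have hcS : ∀ y ∈ S, c y < J ∧ dist y (e (c y)) < δ := by
    intro y hy
    obtain ⟨j, hj, hd⟩ := he2 y hy
    have h1 : c y ≤ j := Nat.find_min' (hp y) (Or.inl hd)
    have h2 : c y < J := lt_of_le_of_lt h1 hj
    refine ⟨h2, ?_⟩
    rcases Nat.find_spec (hp y) with h3 | h3
    · exact h3
    · exact absurd h3 (not_le.2 h2)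
  have hSfin : volume S ≠ ⊤ := hSc.measure_lt_top.ne
  have hfin : ∀ A : Set E, volume (S ∩ A) ≠ ⊤ := fun A =>
    (lt_of_le_of_lt (measure_mono inter_subset_left) hSc.measure_lt_top).ne
  have hne : ∀ j < J, e j ≠ 0 := by
    intro j hj h0
    have h1 := (he1 j hj).1
    rw [h0, norm_zero] at h1
    nlinarith
  refine ⟨J, fun j => (volume (S ∩ c ⁻¹' {j})).toReal, fun j => ‖e j‖⁻¹ • e j,
    fun j => ENNReal.toReal_nonneg, ?_, ?_, ?_⟩
  · intro j hj
    rw [norm_smul, norm_inv, norm_norm, inv_mul_cancel₀ (norm_ne_zero_iff.2 (hne j hj))]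
  · have h1 : ∑ j ∈ Finset.range J, volume (S ∩ c ⁻¹' {j}) ≤ volume S := by
      have h2 := sum_measure_preimage_singleton (μ := volume.restrict S) (Finset.range J) (f := c)
        (fun y _ => hcm (measurableSet_singleton y))
      calc ∑ j ∈ Finset.range J, volume (S ∩ c ⁻¹' {j})
          = ∑ j ∈ Finset.range J, (volume.restrict S) (c ⁻¹' {j}) := by
            refine Finset.sum_congr rfl fun j _ => ?_
            rw [Measure.restrict_apply (hcm (measurableSet_singleton j)), inter_comm]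
        _ = (volume.restrict S) (c ⁻¹' ↑(Finset.range J)) := h2
        _ ≤ (volume.restrict S) univ := measure_mono (subset_univ _)
        _ = volume S := by rw [Measure.restrict_apply_univ]
    have h3 : volume S = ENNReal.ofReal (kap (n + 1) * (1 - r ^ (n + 1))) := by
      have := vol_shell (n := n + 1) (by omega) hr.le hr1.le
      rw [show kap (n + 1) * (1 - r ^ (n + 1)) = kap (n + 1) * ((1 : ℝ) ^ (n + 1) - r ^ (n + 1)) by
        rw [one_pow]]
      exact this
    rw [← ENNReal.toReal_sum (fun j _ => hfin _)]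
    refine ENNReal.toReal_le_of_le_ofReal ?_ (h1.trans (le_of_eq h3))
    have := kap_pos (n + 1)
    have h4 : r ^ (n + 1) ≤ 1 := pow_le_one₀ hr.le hr1.le
    nlinarith
  · intro x hx T hT
    -- a unit vector parallel to x
    obtain ⟨u, hu, hxu⟩ : ∃ u : E, ‖u‖ = 1 ∧ x = ‖x‖ • u := by
      by_cases h0 : x = 0
      · obtain ⟨u, hu⟩ := exists_unit (d := n + 1) (by omega)
        exact ⟨u, hu, by rw [h0]; simp⟩
      · have h1 : ‖x‖ ≠ 0 := norm_ne_zero_iff.2 h0
        refine ⟨‖x‖⁻¹ • x, ?_, ?_⟩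
        · rw [norm_smul, norm_inv, norm_norm, inv_mul_cancel₀ h1]
        · rw [smul_smul, mul_inv_cancel₀ h1, one_smul]
    have hge := shell_plank_ge hn u hu hs.le hr.le hr1.le
    have hsub : plank u (-s) s ∩ S ⊆ ⋃ j ∈ T, (S ∩ c ⁻¹' {j}) := by
      rintro y ⟨hy1, hy2⟩
      obtain ⟨h1, h2⟩ := hcS y hy2
      refine mem_iUnion₂.2 ⟨c y, ?_, hy2, rfl⟩
      refine hT _ (Finset.mem_range.2 h1) ?_
      have h3 : |inner ℝ y u| ≤ s := abs_le.2 ⟨hy1.1, hy1.2⟩
      have h4 : |inner ℝ x y| ≤ s := by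
        rw [hxu, real_inner_smul_left, abs_mul, abs_of_nonneg (norm_nonneg x), real_inner_comm]
        calc ‖x‖ * |inner ℝ y u| ≤ 1 * |inner ℝ y u| :=
              mul_le_mul_of_nonneg_right hx (abs_nonneg _)
          _ ≤ s := by rw [one_mul]; exact h3
      have h5 : |inner ℝ x (e (c y))| ≤ s + δ := by
        have h6 : inner ℝ x (e (c y)) = inner ℝ x y - inner ℝ x (y - e (c y)) := by
          rw [inner_sub_right]; ring
        have h7 : |inner ℝ x (y - e (c y))| ≤ δ := by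
          refine (abs_real_inner_le_norm _ _).trans ?_
          rw [← dist_eq_norm]
          nlinarith [h2, norm_nonneg x, dist_nonneg (x := y) (y := e (c y))]
        rw [h6]
        refine (abs_sub _ _).trans ?_
        linarith
      have h8 : r ≤ ‖e (c y)‖ := le_of_sq_le_sq (he1 _ h1).1 (norm_nonneg _)
      rw [real_inner_smul_right, abs_mul, abs_of_nonneg (by positivity), inv_mul_eq_div]
      have h9 : 0 < ‖e (c y)‖ := lt_of_lt_of_le hr h8
      rw [div_le_div_iff₀ h9 hr]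
      have := abs_nonneg (inner ℝ x (e (c y)))
      nlinarith
    have h10 : volume (plank u (-s) s ∩ S) ≤ ∑ j ∈ T, volume (S ∩ c ⁻¹' {j}) :=
      (measure_mono hsub).trans (measure_biUnion_finset_le T _)
    rw [← ENNReal.toReal_sum (fun j _ => hfin _)]
    have h11 := hge.trans h10
    rw [one_pow, ← ENNReal.ofReal_mul' (by positivity)] at h11
    refine (ENNReal.ofReal_le_iff_le_toReal ?_).1 h11
    exact (ENNReal.sum_lt_top.2 fun j _ => (hfin _).lt_top).ne

end Run7.h434.PL
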