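import Mathlib
import Pool.Agent.Run7.h434.PL.Upper

/-! Asymptotics of multiple plank coverings in all dimensions. -/

set_option autoImplicit false

open MeasureTheory Metric Set Filter Topology

namespace Run7.h434.PL

open Pool.Agent.Helper934.PlankDefs Pool.Agent.Helper934.PlankCore Pool.Agent.Helper934.PlankMain

/-- coverings of bodies inside a ball of radius `R` -/
lemma cover_in_ball {n : ℕ} (hn : 2 ≤ n) {r s δ : ℝ} (hr : 0 < r) (hr1 : r < 1) (hs : 0 < s)
    (hδ : 0 < δ) (hG : 0 < kap n * (√(1 - s ^ 2) ^ n - √(r ^ 2 - s ^ 2) ^ n) * (2 * s))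
    {K : Set (EuclideanSpace ℝ (Fin (n + 1)))} (hb : IsConvexBody K)
    (g : EuclideanSpace ℝ (Fin (n + 1))) {R : ℝ} (hR : 0 < R) (hK : K ⊆ closedBall g R) :
    ∃ C : ℝ, ∀ k : ℕ, coverConst K k ≤
      (kap (n + 1) * (1 - r ^ (n + 1)) * (2 * ((s + δ) / r)) /
        (kap n * (√(1 - s ^ 2) ^ n - √(r ^ 2 - s ^ 2) ^ n) * (2 * s))) * R / minWidth K * k + C := by
  classical
  have hw := minWidth_pos (by omega) hb
  set G := kap n * (√(1 - s ^ 2) ^ n - √(r ^ 2 - s ^ 2) ^ n) * (2 * s) with hGd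
  set M := kap (n + 1) * (1 - r ^ (n + 1)) with hM
  set h := (s + δ) / r with hh
  have hh0 : 0 < h := by positivity
  obtain ⟨J, w, θ, hw0, hθ, hsum, hcov⟩ := exists_planks hn hr hr1 hs hδ
  refine ⟨J * (2 * h) * R / minWidth K, fun k => ?_⟩
  set N : ℝ := k / G with hN
  have hN0 : 0 ≤ N := by positivity
  obtain ⟨m, θ', a', b', h3, h4⟩ := fin_cover (ι := Σ j : Fin J, Fin ⌈w j * N⌉₊) (K := K) (k := k)
    (fun i => θ i.1) (fun i => inner ℝ g (θ i.1) - R * h) (fun i => inner ℝ g (θ i.1) + R * h)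
    (fun i => hθ _ i.1.2) (fun i => by nlinarith) (by
      intro y hy
      have hy1 := hK hy
      rw [mem_closedBall, dist_eq_norm] at hy1
      set x := R⁻¹ • (y - g) with hx
      have hx1 : ‖x‖ ≤ 1 := by
        rw [hx, norm_smul, norm_inv, Real.norm_of_nonneg hR.le, inv_mul_le_iff₀ hR, mul_one]
        exact hy1
      have h5 := hcov x hx1 ((Finset.range J).filter fun j => |inner ℝ x (θ j)| ≤ h)
        (fun j hj h6 => Finset.mem_filter.2 ⟨hj, h6⟩)
      have hiff : ∀ j : ℕ, y ∈ plank (θ j) (inner ℝ g (θ j) - R * h) (inner ℝ g (θ j) + R * h) ↔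
          |inner ℝ x (θ j)| ≤ h := by
        intro j
        have e1 : inner ℝ x (θ j) = R⁻¹ * (inner ℝ y (θ j) - inner ℝ g (θ j)) := by
          rw [hx, real_inner_smul_left, inner_sub_left]
        rw [e1, abs_mul, abs_inv, abs_of_pos hR, inv_mul_le_iff₀ hR, abs_le]
        simp only [plank, mem_ofPred_eq]
        constructor
        · rintro ⟨h1, h2⟩; exact ⟨by linarith, by linarith⟩
        · rintro ⟨h1, h2⟩; exact ⟨by linarith, by linarith⟩
      rw [Nat.card_eq_fintype_card, Fintype.card_subtype, Finset.card_filter, Fintype.sum_sigma]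
      simp only [hiff, Finset.sum_const, Finset.card_univ, Fintype.card_fin, smul_eq_mul, mul_ite,
        mul_one, mul_zero]
      have h6 : (k : ℝ) ≤ ∑ j ∈ (Finset.range J).filter (fun j => |inner ℝ x (θ j)| ≤ h),
          (⌈w j * N⌉₊ : ℝ) := by
        calc (k : ℝ) = G * N := by rw [hN]; field_simp
          _ ≤ (∑ j ∈ (Finset.range J).filter (fun j => |inner ℝ x (θ j)| ≤ h), w j) * N :=
            mul_le_mul_of_nonneg_right h5 hN0
          _ = ∑ j ∈ (Finset.range J).filter (fun j => |inner ℝ x (θ j)| ≤ h), w j * N := by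
            rw [Finset.sum_mul]
          _ ≤ _ := Finset.sum_le_sum fun j _ => Nat.le_ceil _
      rw [Finset.sum_filter, Finset.sum_range (n := J)
        (f := fun j => if |inner ℝ x (θ j)| ≤ h then (⌈w j * N⌉₊ : ℝ) else 0)] at h6
      exact_mod_cast h6)
  refine (coverConst_le hw.le h3).trans ?_
  have h7 : ∑ i, (b' i - a' i) ≤ (M * N + J) * (2 * h * R) := by
    rw [h4]
    have e2 : ∀ i : (Σ j : Fin J, Fin ⌈w j * N⌉₊),
        inner ℝ g (θ i.1) + R * h - (inner ℝ g (θ i.1) - R * h) = 2 * h * R := fun i => by ring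
    simp only [e2]
    rw [Finset.sum_const, Finset.card_univ, Fintype.card_sigma, nsmul_eq_mul]
    refine mul_le_mul_of_nonneg_right ?_ (by positivity)
    simp only [Fintype.card_fin]
    push_cast
    calc ∑ j : Fin J, (⌈w j * N⌉₊ : ℝ) ≤ ∑ j : Fin J, (w j * N + 1) :=
          Finset.sum_le_sum fun j _ => (Nat.ceil_lt_add_one (mul_nonneg (hw0 _) hN0)).le
      _ = (∑ j ∈ Finset.range J, w j) * N + J := by
          rw [Finset.sum_add_distrib, ← Finset.sum_mul, Finset.sum_range (n := J)]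
          simp
      _ ≤ M * N + J := by
          have := mul_le_mul_of_nonneg_right hsum hN0
          linarith
  have e3 : M * (2 * h) / G * R / minWidth K * k + J * (2 * h) * R / minWidth K =
      ((M * N + J) * (2 * h * R)) / minWidth K := by
    rw [hN]
    field_simp
  rw [e3]
  exact div_le_div_of_nonneg_right h7 hw.le

/-- the rate can be made close to `2 λ` -/
lemma exists_rate {n : ℕ} (hn : 2 ≤ n) {ε : ℝ} (hε : 0 < ε) :
    ∃ r s δ : ℝ, 0 < r ∧ r < 1 ∧ 0 < s ∧ 0 < δ ∧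
      0 < kap n * (√(1 - s ^ 2) ^ n - √(r ^ 2 - s ^ 2) ^ n) * (2 * s) ∧
      kap (n + 1) * (1 - r ^ (n + 1)) * (2 * ((s + δ) / r)) /
        (kap n * (√(1 - s ^ 2) ^ n - √(r ^ 2 - s ^ 2) ^ n) * (2 * s)) < 2 * lamb n + ε := by
  have hk0 := kap_pos n
  have hk1 := kap_pos (n + 1)
  have hn0 : (0 : ℝ) < n := by
    have : 0 < n := by omega
    exact_mod_cast this
  -- the limit r → 1
  have l1 : Tendsto (fun r : ℝ => kap (n + 1) * ((1 ^ (n + 1) - r ^ (n + 1)) / (1 - r)) /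
      (r * (kap n * ((1 ^ n - r ^ n) / (1 - r))))) (𝓝[<] 1)
      (𝓝 (kap (n + 1) * (((n + 1 : ℕ) : ℝ) * 1 ^ (n + 1 - 1)) /
        (1 * (kap n * ((n : ℝ) * 1 ^ (n - 1)))))) := by
    refine ((slope_pow (n + 1) 1).const_mul (kap (n + 1))).div ?_ ?_
    · refine Tendsto.mul ?_ ((slope_pow n 1).const_mul (kap n))
      exact tendsto_nhdsWithin_of_tendsto_nhds tendsto_id
    · simp only [one_pow, mul_one, one_mul]
      positivity
  have e1 : kap (n + 1) * (((n + 1 : ℕ) : ℝ) * 1 ^ (n + 1 - 1)) /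
        (1 * (kap n * ((n : ℝ) * 1 ^ (n - 1)))) = 2 * lamb n := by
    unfold lamb
    push_cast
    simp only [one_pow, mul_one, one_mul]
    field_simp
  rw [e1] at l1
  have ev1 := l1.eventually_lt_const (show 2 * lamb n < 2 * lamb n + ε by linarith)
  obtain ⟨r, hr, hr2⟩ := (ev1.and (Ioo_mem_nhdsLT (show (0 : ℝ) < 1 by norm_num))).exists
  have hr0 := hr2.1
  have hr1 := hr2.2
  have hrn : r ^ n < 1 := pow_lt_one₀ hr0.le hr1 (by omega)
  have hsub : (0 : ℝ) < 1 - r := by linarith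
  have e2 : kap (n + 1) * ((1 ^ (n + 1) - r ^ (n + 1)) / (1 - r)) /
      (r * (kap n * ((1 ^ n - r ^ n) / (1 - r)))) =
      kap (n + 1) * (1 - r ^ (n + 1)) / (r * (kap n * (1 - r ^ n))) := by
    have h1 : (1 : ℝ) - r ^ n ≠ 0 := by linarith
    simp only [one_pow]
    field_simp
  rw [e2] at hr
  -- the limit s → 0
  have hc : ContinuousAt (fun s : ℝ => kap (n + 1) * (1 - r ^ (n + 1)) * (1 + s) /
      (r * (kap n * (√(1 - s ^ 2) ^ n - √(r ^ 2 - s ^ 2) ^ n)))) 0 := by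
    refine ContinuousAt.div (by fun_prop) (by fun_prop) ?_
    rw [show (1 : ℝ) - 0 ^ 2 = 1 by ring, show r ^ 2 - 0 ^ 2 = r ^ 2 by ring, Real.sqrt_one,
      Real.sqrt_sq hr0.le, one_pow]
    have : 0 < 1 - r ^ n := by linarith
    positivity
  have hd : ContinuousAt (fun s : ℝ => √(1 - s ^ 2) ^ n - √(r ^ 2 - s ^ 2) ^ n) 0 := by fun_prop
  have l2 := hc.tendsto.mono_left (nhdsWithin_le_nhds (s := Ioi (0 : ℝ)))
  have l3 := hd.tendsto.mono_left (nhdsWithin_le_nhds (s := Ioi (0 : ℝ)))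
  simp only [show (1 : ℝ) - 0 ^ 2 = 1 by ring, show r ^ 2 - 0 ^ 2 = r ^ 2 by ring, Real.sqrt_one,
    Real.sqrt_sq hr0.le, one_pow, add_zero, mul_one] at l2 l3
  have ev2 := l2.eventually_lt_const hr
  have ev3 := l3.eventually_const_lt (show 0 < 1 - r ^ n by linarith)
  obtain ⟨s, ⟨h1, h2⟩, hs⟩ := ((ev2.and ev3).and self_mem_nhdsWithin).exists
  have hs0 : (0 : ℝ) < s := hs
  refine ⟨r, s, s ^ 2, hr0, hr1, hs0, by positivity, by positivity, ?_⟩
  refine lt_of_eq_of_lt ?_ h1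
  have h3 : √(1 - s ^ 2) ^ n - √(r ^ 2 - s ^ 2) ^ n ≠ 0 := h2.ne'
  field_simp

end Run7.h434.PL
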